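import Mathlib
import Pool.Agent.H58P.Ht
import Pool.Agent.H58B.Low
import Pool.Agent.H58R.Loc

set_option autoImplicit false

/-!
# Obstruction index, essential minimum and torsion subvarieties in powers of the multiplicative group
-/

namespace Pool.Agent.U343.Rem

open MvPolynomial TensorProduct

/-- the algebraic numbers -/
abbrev Qb : Type := AlgebraicClosure ℚ

/-- the points of `G_m^n` with algebraic coordinates -/
abbrev Torus (n : ℕ) : Type := Fin n → Qbˣ

/-- the canonical height on `G_m^n`: the sum of the absolute logarithmic Weil heights of the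
coordinates -/
noncomputable def hG {n : ℕ} (x : Torus n) : ℝ := ∑ i, NumberField.absLogHeight₁ (x i : Qb)

/-- `Z` is a Zariski closed subset of the torus defined over `L`: the set of the common zeros of some
polynomials with coefficients in `L` -/
def ClosedOver {n : ℕ} (L : IntermediateField ℚ Qb) (Z : Set (Torus n)) : Prop :=
  ∃ S : Set (MvPolynomial (Fin n) L), Z = {x | ∀ f ∈ S, aeval (fun i => (x i : Qb)) f = 0}

/-- `V` is a subvariety of the torus: nonempty, Zariski closed and irreducible -/
def IsSubvariety {n : ℕ} (V : Set (Torus n)) : Prop :=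
  ClosedOver ⊤ V ∧ V.Nonempty ∧ ∀ Z₁ Z₂ : Set (Torus n), ClosedOver ⊤ Z₁ → ClosedOver ⊤ Z₂ →
    V ⊆ Z₁ ∪ Z₂ → V ⊆ Z₁ ∨ V ⊆ Z₂

/-- `V` has dimension `d`: there is a strictly increasing chain of `d + 1` subvarieties contained in
`V`, and none of `d + 2` -/
def HasDim {n : ℕ} (V : Set (Torus n)) (d : ℕ) : Prop :=
  (∃ c : Fin (d + 1) → Set (Torus n), StrictMono c ∧ ∀ i, IsSubvariety (c i) ∧ c i ⊆ V) ∧
    ¬ ∃ c : Fin (d + 2) → Set (Torus n), StrictMono c ∧ ∀ i, IsSubvariety (c i) ∧ c i ⊆ V

/-- `Z` is Zariski closed, nonempty and all its irreducible components (maximal subvarieties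
contained in `Z`) have dimension `d` -/
def Equidimensional {n : ℕ} (Z : Set (Torus n)) (d : ℕ) : Prop :=
  ClosedOver ⊤ Z ∧ Z.Nonempty ∧ ∀ C : Set (Torus n), IsSubvariety C → C ⊆ Z →
    (∀ C' : Set (Torus n), IsSubvariety C' → C ⊆ C' → C' ⊆ Z → C' = C) → HasDim C d

/-- The degree with respect to `O(1, ..., 1)` of a Zariski closed set `Z` of dimension `d` (that is,
the intersection number of `O(1, ..., 1)^d` with the closure of `Z` in the product of `n` projective
lines): the largest number of points of a finite intersection of `Z` with `d` hypersurfaces whose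
equations have degree at most one in every variable. -/
noncomputable def degree {n : ℕ} (Z : Set (Torus n)) (d : ℕ) : ℕ :=
  sSup {m | ∃ f : Fin d → MvPolynomial (Fin n) Qb, (∀ j i, (f j).degreeOf i ≤ 1) ∧
    (Z ∩ {x | ∀ j, aeval (fun i => (x i : Qb)) (f j) = 0}).Finite ∧
    m = (Z ∩ {x | ∀ j, aeval (fun i => (x i : Qb)) (f j) = 0}).ncard}

/-- the obstruction index `ω_L(V)`: the least value of `degree(Z)^(1 / (n - dim Z))` for the
equidimensional Zariski closed sets `Z`, not the whole torus, which are defined over `L` and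
contain `V` -/
noncomputable def obstructionIndex {n : ℕ} (L : IntermediateField ℚ Qb) (V : Set (Torus n)) : ℝ :=
  sInf {t | ∃ (Z : Set (Torus n)) (d : ℕ), Equidimensional Z d ∧ ClosedOver L Z ∧
    Z ≠ Set.univ ∧ V ⊆ Z ∧ t = (degree Z d : ℝ) ^ (1 / ((n : ℝ) - d))}

/-- the essential minimum: the infimum of the real numbers `θ` such that the points of `V` of height
at most `θ` are Zariski dense in `V` -/
noncomputable def essentialMinimum {n : ℕ} (V : Set (Torus n)) : ℝ :=
  sInf {θ | ∀ Z : Set (Torus n), ClosedOver ⊤ Z → {x | x ∈ V ∧ hG x ≤ θ} ⊆ Z → V ⊆ Z}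

/-- `x` is in the saturation of `Γ`: a positive power of `x` is in `Γ` -/
def InSaturation {n : ℕ} (Γ : Subgroup (Torus n)) (x : Torus n) : Prop :=
  ∃ m : ℕ, 0 < m ∧ x ^ m ∈ Γ

/-- `W` is a `Γ`-torsion subvariety: the translate of a connected algebraic subgroup by an element of
the saturation of `Γ` -/
def IsTorsionSubvariety {n : ℕ} (Γ : Subgroup (Torus n)) (W : Set (Torus n)) : Prop :=
  ∃ (B : Subgroup (Torus n)) (γ : Torus n), IsSubvariety (B : Set (Torus n)) ∧
    InSaturation Γ γ ∧ W = {x | ∃ b ∈ B, x = b * γ}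

/-- `V` is a `Γ`-transverse subvariety: no `Γ`-torsion subvariety, except the whole torus, contains
`V`, and `V` is not the whole torus -/
def IsTransverse {n : ℕ} (Γ : Subgroup (Torus n)) (V : Set (Torus n)) : Prop :=
  IsSubvariety V ∧ V ≠ Set.univ ∧ ∀ W : Set (Torus n), IsTorsionSubvariety Γ W → V ⊆ W →
    W = Set.univ

/-- `K(Γ)`, the field generated over `K` by the coordinates of the points of `Γ` -/
noncomputable def coordField {n : ℕ} (K : IntermediateField ℚ Qb) (Γ : Subgroup (Torus n)) :
    IntermediateField ℚ Qb :=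
  K ⊔ IntermediateField.adjoin ℚ {y | ∃ g ∈ Γ, ∃ i, y = (g i : Qb)}

/-- `Γ` is a Lehmer group over `K`: there is `c > 0` such that the product of the obstruction index
relative to `K(Γ)` and of the essential minimum is at least `c` for all `Γ`-transverse
subvarieties -/
def IsLehmerGroup {n : ℕ} (K : IntermediateField ℚ Qb) (Γ : Subgroup (Torus n)) : Prop :=
  ∃ c : ℝ, 0 < c ∧ ∀ V : Set (Torus n), IsTransverse Γ V →
    c ≤ obstructionIndex (coordField K Γ) V * essentialMinimum V

/-- the rank of `Γ`, the dimension of `Γ ⊗ ℚ` -/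
noncomputable def rank {n : ℕ} (Γ : Subgroup (Torus n)) : Cardinal :=
  Module.rank ℚ (ℚ ⊗[ℤ] Additive Γ)

/-- the coordinates of `a` are multiplicatively independent -/
def MulIndep {n : ℕ} (a : Torus n) : Prop := ∀ k : Fin n → ℤ, ∏ i, a i ^ k i = 1 → k = 0

/-- the group of all points a positive power of which is a power of `a` (in `G_m^n`) -/
def divisionGroup {n : ℕ} (a : Torus n) : Subgroup (Torus n) where
  carrier := {x | ∃ m : ℕ, 0 < m ∧ ∃ k : ℤ, x ^ m = a ^ k}
  one_mem' := ⟨1, one_pos, 0, by simp⟩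
  mul_mem' := by
    rintro x y ⟨m, hm, k, hk⟩ ⟨m', hm', k', hk'⟩
    refine ⟨m * m', Nat.mul_pos hm hm', k * m' + k' * m, ?_⟩
    rw [mul_pow, pow_mul, hk, mul_comm m m', pow_mul, hk', zpow_add, zpow_mul, zpow_mul,
      zpow_natCast, zpow_natCast]
  inv_mem' := by
    rintro x ⟨m, hm, k, hk⟩
    exact ⟨m, hm, -k, by rw [inv_pow, hk, zpow_neg]⟩

end Pool.Agent.U343.Rem
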