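import Pool.Agent.U343.Rem.Base

set_option autoImplicit false

namespace Pool.Agent.U343.Rem

open MvPolynomial TensorProduct

lemma closedOver_singleton {n : ℕ} (L : IntermediateField ℚ Qb) (P : Torus n)
    (hP : ∀ i, (P i : Qb) ∈ L) : ClosedOver L {P} := by
  refine ⟨{f | ∃ i, f = X i - C ⟨(P i : Qb), hP i⟩}, ?_⟩
  ext x
  simp only [Set.mem_singleton_iff, Set.mem_ofPred_eq]
  constructor
  · rintro rfl f ⟨i, rfl⟩
    simp only [map_sub, aeval_X, aeval_C]
    exact sub_self _
  · intro h
    funext i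
    apply Units.ext
    have := h _ ⟨i, rfl⟩
    simp only [map_sub, aeval_X, aeval_C] at this
    exact sub_eq_zero.mp this

lemma closedOver_empty {n : ℕ} (L : IntermediateField ℚ Qb) :
    ClosedOver L (∅ : Set (Torus n)) := by
  refine ⟨{1}, ?_⟩
  ext x
  simp

lemma subset_singleton_closed {n : ℕ} {P : Torus n} {C : Set (Torus n)} (hC : C.Nonempty)
    (h : C ⊆ {P}) : C = {P} := by
  rcases Set.subset_singleton_iff_eq.mp h with h1 | h1
  · rw [h1] at hC; exact absurd hC Set.not_nonempty_empty
  · exact h1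

lemma isSubvariety_singleton {n : ℕ} (P : Torus n) : IsSubvariety {P} := by
  refine ⟨closedOver_singleton ⊤ P (fun i => trivial), Set.singleton_nonempty P, ?_⟩
  intro Z₁ Z₂ _ _ h
  rcases h (Set.mem_singleton P) with h1 | h1
  · left; rintro x rfl; exact h1
  · right; rintro x rfl; exact h1

lemma hasDim_singleton {n : ℕ} (P : Torus n) : HasDim {P} 0 := by
  constructor
  · refine ⟨fun _ => {P}, ?_, fun i => ⟨isSubvariety_singleton P, le_refl _⟩⟩
    intro i j hij
    exact absurd hij (by omega)
  · rintro ⟨c, hc, h⟩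
    have h01 : c 0 < c 1 := hc (by simp)
    have e0 := subset_singleton_closed (h 0).1.2.1 (h 0).2
    have e1 := subset_singleton_closed (h 1).1.2.1 (h 1).2
    rw [e0, e1] at h01
    exact lt_irrefl _ h01

lemma equidimensional_singleton {n : ℕ} (P : Torus n) : Equidimensional {P} 0 := by
  refine ⟨closedOver_singleton ⊤ P (fun i => trivial), Set.singleton_nonempty P, ?_⟩
  intro C hC hCP _
  rw [subset_singleton_closed hC.2.1 hCP]
  exact hasDim_singleton P

lemma degree_singleton {n : ℕ} (P : Torus n) : degree {P} 0 = 1 := by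
  unfold degree
  have : {m | ∃ f : Fin 0 → MvPolynomial (Fin n) Qb, (∀ j i, (f j).degreeOf i ≤ 1) ∧
    (({P} : Set (Torus n)) ∩ {x | ∀ j, aeval (fun i => (x i : Qb)) (f j) = 0}).Finite ∧
    m = (({P} : Set (Torus n)) ∩ {x | ∀ j, aeval (fun i => (x i : Qb)) (f j) = 0}).ncard} = {1} := by
    ext m
    simp
  rw [this, csSup_singleton]

lemma obstructionIndex_nonneg {n : ℕ} (L : IntermediateField ℚ Qb) (V : Set (Torus n)) :
    0 ≤ obstructionIndex L V := by
  apply Real.sInf_nonneg
  rintro t ⟨Z, d, _, _, _, _, rfl⟩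
  positivity

lemma obstructionIndex_singleton_le {n : ℕ} (hn : 1 ≤ n) (L : IntermediateField ℚ Qb) (P : Torus n)
    (hP : ∀ i, (P i : Qb) ∈ L) : obstructionIndex L {P} ≤ 1 := by
  apply csInf_le
  · refine ⟨0, ?_⟩
    rintro t ⟨Z, d, _, _, _, _, rfl⟩
    positivity
  · refine ⟨{P}, 0, equidimensional_singleton P, closedOver_singleton L P hP, ?_, le_refl _, ?_⟩
    · intro h
      have h1 : ∀ x : Torus n, x = P := fun x => by
        have : x ∈ (Set.univ : Set (Torus n)) := trivial
        rw [← h] at this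
        exact this
      have h2 := h1 1
      have h3 := h1 (fun _ => Units.mk0 (2 : Qb) two_ne_zero)
      rw [← h2] at h3
      have h4 := congrArg (fun u : Qbˣ => (u : Qb)) (congrFun h3 ⟨0, hn⟩)
      simp at h4
    · rw [degree_singleton]
      simp

lemma hG_nonneg {n : ℕ} (x : Torus n) : 0 ≤ hG x := by
  apply Finset.sum_nonneg
  intro i _
  rw [Pool.Agent.H58P.absLogHeight₁_eq]
  exact Pool.Agent.H58R.ht_nonneg _

lemma essentialMinimum_singleton {n : ℕ} (P : Torus n) : essentialMinimum {P} = hG P := by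
  unfold essentialMinimum
  have : {θ | ∀ Z : Set (Torus n), ClosedOver ⊤ Z → {x | x ∈ ({P} : Set (Torus n)) ∧ hG x ≤ θ} ⊆ Z →
      {P} ⊆ Z} = Set.Ici (hG P) := by
    ext θ
    simp only [Set.mem_ofPred_eq, Set.mem_Ici, Set.mem_singleton_iff]
    constructor
    · intro h
      by_contra hlt
      have := h ∅ (closedOver_empty ⊤) (by
        rintro x ⟨rfl, hx⟩
        exact absurd hx hlt) rfl
      exact this
    · intro h Z _ hZ
      rintro x rfl
      exact hZ ⟨rfl, h⟩
  rw [this, csInf_Ici]

/-- a proper algebraic subgroup lies in the kernel of a character -/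
lemma exists_character {n : ℕ} (B : Subgroup (Torus n)) (hB : ClosedOver ⊤ (B : Set (Torus n)))
    (hne : (B : Set (Torus n)) ≠ Set.univ) :
    ∃ c : Fin n → ℤ, c ≠ 0 ∧ ∀ x ∈ B, ∏ i, x i ^ c i = 1 := by
  obtain ⟨S, hS⟩ := hB
  have : ∃ f ∈ S, f ≠ 0 := by
    by_contra h
    push Not at h
    apply hne
    rw [hS]
    ext x
    simp only [Set.mem_ofPred_eq, Set.mem_univ, iff_true]
    intro f hf
    rw [h f hf, map_zero]
  obtain ⟨f, hfS, hf0⟩ := this
  -- the characters
  let φ : (Fin n →₀ ℕ) → (B →* Qb) := fun u =>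
    { toFun := fun x => ∏ i, ((x : Torus n) i : Qb) ^ u i
      map_one' := by simp
      map_mul' := by
        intro x y
        simp [mul_pow, Finset.prod_mul_distrib] }
  have hvan : ∀ x : B, ∑ u ∈ f.support,
      (algebraMap (⊤ : IntermediateField ℚ Qb) Qb (f.coeff u)) * φ u x = 0 := by
    intro x
    have hx : (x : Torus n) ∈ (B : Set (Torus n)) := x.2
    rw [hS] at hx
    have h1 := hx f hfS
    rw [aeval_def, eval₂_eq'] at h1
    exact h1
  by_cases hinj : ∀ u ∈ f.support, ∀ v ∈ f.support, φ u = φ v → u = v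
  · exfalso
    have hli := linearIndependent_monoidHom B Qb
    have hli' : LinearIndependent Qb (fun u : f.support => (⇑(φ u) : B → Qb)) := by
      have := hli.comp (fun u : f.support => φ u) (by
        intro u v huv
        exact Subtype.ext (hinj u u.2 v v.2 huv))
      exact this
    rw [Fintype.linearIndependent_iff] at hli'
    have h2 := hli' (fun u => algebraMap (⊤ : IntermediateField ℚ Qb) Qb (f.coeff u)) (by
      funext x
      rw [Finset.sum_apply]
      simp only [Pi.smul_apply, smul_eq_mul, Pi.zero_apply]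
      rw [← hvan x]
      exact Finset.sum_coe_sort f.support
        (fun u => (algebraMap (⊤ : IntermediateField ℚ Qb) Qb (f.coeff u)) * φ u x))
    obtain ⟨u, hu⟩ := MvPolynomial.ne_zero_iff.mp hf0
    have hu' : u ∈ f.support := MvPolynomial.mem_support_iff.mpr hu
    have h3 := h2 ⟨u, hu'⟩
    apply hu
    exact Subtype.ext h3
  · push Not at hinj
    obtain ⟨u, _, v, _, huv, hne'⟩ := hinj
    refine ⟨fun i => (u i : ℤ) - v i, ?_, ?_⟩
    · intro h
      apply hne'
      ext i
      have := congrFun h i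
      simp only [Pi.zero_apply] at this
      omega
    · intro x hx
      have h1 := DFunLike.congr_fun huv ⟨x, hx⟩
      simp only [φ, MonoidHom.coe_mk, OneHom.coe_mk] at h1
      apply Units.ext
      rw [Units.val_one]
      push_cast
      have h2 : (∏ i, (x i : Qb) ^ ((u i : ℤ) - v i)) = (∏ i, (x i : Qb) ^ u i) / ∏ i, (x i : Qb) ^ v i := by
        rw [← Finset.prod_div_distrib]
        apply Finset.prod_congr rfl
        intro i _
        rw [zpow_sub₀ (Units.ne_zero _), zpow_natCast, zpow_natCast]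
      rw [h2, h1, div_self]
      exact Finset.prod_ne_zero_iff.mpr fun i _ => pow_ne_zero _ (Units.ne_zero _)

end Pool.Agent.U343.Rem
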