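import Pool.Agent.U343.Rem.Main

set_option autoImplicit false

namespace Pool.Agent.U343.Rem

open MvPolynomial TensorProduct

lemma singleton_ne_univ {n : ℕ} (hn : 1 ≤ n) (P : Torus n) : ({P} : Set (Torus n)) ≠ Set.univ := by
  intro h
  have h1 : ∀ x : Torus n, x = P := fun x => by
    have : x ∈ (Set.univ : Set (Torus n)) := trivial
    rw [← h] at this
    exact this
  have h2 := h1 1
  have h3 := h1 (fun _ => Units.mk0 (2 : Qb) two_ne_zero)
  rw [← h2] at h3
  have h4 := congrArg (fun u : Qbˣ => (u : Qb)) (congrFun h3 ⟨0, hn⟩)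
  simp at h4

lemma transverse_singleton {n : ℕ} (hn : 2 ≤ n) (a : Torus n) (ha : MulIndep a) (m : ℕ)
    (P : Torus n) (hP : P ^ m = shift a) : IsTransverse (divisionGroup a) {P} := by
  refine ⟨isSubvariety_singleton P, singleton_ne_univ (by omega) P, ?_⟩
  rintro W ⟨B, γ, hB, ⟨M₁, hM₁, M₂, hM₂, k, hk⟩, rfl⟩ hPW
  by_contra hne
  have hBne : (B : Set (Torus n)) ≠ Set.univ := by
    intro h
    apply hne
    ext x
    simp only [Set.mem_ofPred_eq, Set.mem_univ, iff_true]
    refine ⟨x * γ⁻¹, ?_, by rw [inv_mul_cancel_right]⟩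
    have : x * γ⁻¹ ∈ (B : Set (Torus n)) := by rw [h]; trivial
    exact this
  obtain ⟨c, hc0, hc⟩ := exists_character B hB.1 hBne
  obtain ⟨b, hb, hPb⟩ := hPW (Set.mem_singleton P)
  have hχ : chi c P = chi c γ := by
    rw [hPb, chi_mul]
    have : chi c b = 1 := hc b hb
    rw [this, one_mul]
  apply hc0
  have hγ : γ ^ (M₁ * M₂) = a ^ k := by rw [pow_mul, hk]
  have h := eq_of_character a ha c m P γ hP (M₁ * M₂) k hγ hχ
  refine no_eigenvector hn c ((M₁ * M₂ : ℕ) : ℤ) (k * m) ?_ h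
  have : M₁ * M₂ ≠ 0 := Nat.mul_ne_zero (by omega) (by omega)
  exact_mod_cast this

lemma exists_point {n : ℕ} (a : Torus n) (K : IntermediateField ℚ Qb) (m : ℕ) (hm : 0 < m) :
    ∃ P : Torus n, P ^ m = shift a ∧ ∀ i, (P i : Qb) ∈ coordField K (divisionGroup a) := by
  have h1 : ∀ i, ∃ z : Qbˣ, z ^ m = a i := by
    intro i
    obtain ⟨z, hz⟩ := IsAlgClosed.exists_pow_nat_eq (a i : Qb) hm
    have hz0 : z ≠ 0 := by
      rintro rfl
      rw [zero_pow (by omega)] at hz
      exact (a i).ne_zero hz.symm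
    exact ⟨Units.mk0 z hz0, Units.ext (by simpa using hz)⟩
  choose b hb using h1
  have hb' : b ^ m = a := funext fun i => by rw [Pi.pow_apply]; exact hb i
  refine ⟨shift b, by rw [shift_pow, hb'], fun i => ?_⟩
  have hbΓ : b ∈ divisionGroup a := ⟨m, hm, 1, by rw [hb', zpow_one]⟩
  have h2 : (b (nxt i) : Qb) ∈ coordField K (divisionGroup a) := by
    apply (le_sup_right : _ ≤ K ⊔ _)
    exact IntermediateField.subset_adjoin ℚ _ ⟨b, hbΓ, nxt i, rfl⟩
  have h3 : ((shift b i : Qbˣ) : Qb) = (b (nxt i) : Qb) ^ wt i := by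
    unfold shift
    rw [Units.val_pow_eq_pow_val]
  rw [h3]
  exact pow_mem h2 _

lemma hG_pow {n : ℕ} (x : Torus n) (m : ℕ) : hG (x ^ m) = m * hG x := by
  unfold hG
  rw [Finset.mul_sum]
  apply Finset.sum_congr rfl
  intro i _
  rw [Pool.Agent.H58P.absLogHeight₁_eq, Pool.Agent.H58P.absLogHeight₁_eq, Pi.pow_apply,
    Units.val_pow_eq_pow_val, Pool.Agent.H58B.ht_pow]

theorem not_lehmer {n : ℕ} (hn : 2 ≤ n) (a : Torus n) (ha : MulIndep a)
    (K : IntermediateField ℚ Qb) : ¬ IsLehmerGroup K (divisionGroup a) := by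
  rintro ⟨c, hc, h⟩
  obtain ⟨m, hm⟩ := exists_nat_gt (hG (shift a) / c)
  have hm0 : 0 < m := by
    have : (0 : ℝ) < m := lt_of_le_of_lt (div_nonneg (hG_nonneg _) hc.le) hm
    exact_mod_cast this
  have hmR : (0 : ℝ) < m := by exact_mod_cast hm0
  obtain ⟨P, hP, hPK⟩ := exists_point a K m hm0
  have h1 := h {P} (transverse_singleton hn a ha m P hP)
  rw [essentialMinimum_singleton] at h1
  have h2 : obstructionIndex (coordField K (divisionGroup a)) {P} * hG P ≤ 1 * hG P :=
    mul_le_mul_of_nonneg_right (obstructionIndex_singleton_le (by omega) _ P hPK) (hG_nonneg P)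
  have h3 : hG (shift a) = m * hG P := by rw [← hP, hG_pow]
  rw [h3, div_lt_iff₀ hc] at hm
  have h4 : hG P < c := by
    have := hm
    exact lt_of_mul_lt_mul_left this hmR.le
  linarith

lemma saturated {n : ℕ} (a : Torus n) (x : Torus n) (h : InSaturation (divisionGroup a) x) :
    x ∈ divisionGroup a := by
  obtain ⟨M₁, hM₁, M₂, hM₂, k, hk⟩ := h
  exact ⟨M₁ * M₂, Nat.mul_pos hM₁ hM₂, k, by rw [pow_mul, hk]⟩

lemma zpow_inj {n : ℕ} (hn : 1 ≤ n) (a : Torus n) (ha : MulIndep a) (k l : ℤ) (h : a ^ k = a ^ l) :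
    k = l := by
  have h1 := ha (fun i => if i = ⟨0, hn⟩ then k - l else 0) (by
    rw [Finset.prod_eq_single ⟨0, hn⟩]
    · rw [if_pos rfl, zpow_sub]
      have := congrFun h ⟨0, hn⟩
      simp only [Pi.pow_apply] at this
      rw [this, mul_inv_cancel]
    · intro b _ hb
      rw [if_neg hb, zpow_zero]
    · intro h; exact absurd (Finset.mem_univ _) h)
  have h2 := congrFun h1 ⟨0, hn⟩
  simp only [if_true, Pi.zero_apply] at h2
  linarith

theorem rank_eq_one {n : ℕ} (hn : 1 ≤ n) (a : Torus n) (ha : MulIndep a) :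
    rank (divisionGroup a) = 1 := by
  have hmem : a ∈ divisionGroup a := ⟨1, one_pos, 1, by simp⟩
  -- the exponent map
  have hex : ∀ x : divisionGroup a, ∃ q : ℚ, ∃ m : ℕ, 0 < m ∧ ∃ k : ℤ, (x : Torus n) ^ m = a ^ k ∧
      q = k / m := by
    rintro ⟨x, m, hm, k, hk⟩
    exact ⟨k / m, m, hm, k, hk, rfl⟩
  choose q hq using hex
  have huniq : ∀ (x : Torus n) (m m' : ℕ) (k k' : ℤ), 0 < m → 0 < m' → x ^ m = a ^ k →
      x ^ m' = a ^ k' → (k : ℚ) / m = k' / m' := by
    intro x m m' k k' hm hm' h h'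
    have h1 : a ^ (k * m') = a ^ (k' * m) := by
      rw [zpow_mul, ← h, zpow_mul, ← h', zpow_natCast, zpow_natCast, ← pow_mul, ← pow_mul, mul_comm]
    have h2 := zpow_inj hn a ha _ _ h1
    have hmq : (m : ℚ) ≠ 0 := by positivity
    have hmq' : (m' : ℚ) ≠ 0 := by positivity
    rw [div_eq_div_iff hmq hmq']
    exact_mod_cast h2
  let φ : Additive (divisionGroup a) →+ ℚ :=
    { toFun := fun x => q x.toMul
      map_zero' := by
        obtain ⟨m, hm, k, hk, e⟩ := hq (1 : divisionGroup a)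
        have := huniq 1 m 1 k 0 hm one_pos hk (by simp)
        change q (1 : divisionGroup a) = 0
        rw [e, this]
        simp
      map_add' := by
        intro x y
        change q (x.toMul * y.toMul) = q x.toMul + q y.toMul
        obtain ⟨m, hm, k, hk, e⟩ := hq (x.toMul * y.toMul)
        obtain ⟨m₁, hm₁, k₁, hk₁, e₁⟩ := hq x.toMul
        obtain ⟨m₂, hm₂, k₂, hk₂, e₂⟩ := hq y.toMul
        have := huniq ((x.toMul * y.toMul : divisionGroup a) : Torus n) m (m₁ * m₂) k
          (k₁ * m₂ + k₂ * m₁) hm (Nat.mul_pos hm₁ hm₂) hk (by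
            rw [Subgroup.coe_mul, mul_pow, pow_mul, hk₁, mul_comm m₁ m₂, pow_mul, hk₂, zpow_add,
              zpow_mul, zpow_mul, zpow_natCast, zpow_natCast])
        rw [e, e₁, e₂, this]
        have h1 : (m₁ : ℚ) ≠ 0 := by positivity
        have h2 : (m₂ : ℚ) ≠ 0 := by positivity
        push_cast
        field_simp }
  let φℤ : Additive (divisionGroup a) →ₗ[ℤ] ℚ := φ.toIntLinearMap
  let ψ : ℚ ⊗[ℤ] Additive (divisionGroup a) →ₗ[ℚ] ℚ := TensorProduct.AlgebraTensorModule.lift
    { toFun := fun r => r • φℤ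
      map_add' := fun r s => add_smul r s φℤ
      map_smul' := fun r s => by
        simp only [RingHom.id_apply, smul_eq_mul]
        rw [mul_smul] }
  let v : ℚ ⊗[ℤ] Additive (divisionGroup a) := 1 ⊗ₜ Additive.ofMul ⟨a, hmem⟩
  have hψv : ψ v = 1 := by
    have h1 : ψ v = (1 : ℚ) • φℤ (Additive.ofMul ⟨a, hmem⟩) := rfl
    rw [h1, one_smul]
    change q ⟨a, hmem⟩ = 1
    obtain ⟨m, hm, k, hk, e⟩ := hq ⟨a, hmem⟩
    rw [e, huniq a m 1 k 1 hm one_pos hk (by simp)]
    simp
  have hle : Module.rank ℚ (ℚ ⊗[ℤ] Additive (divisionGroup a)) ≤ 1 := by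
    rw [rank_le_one_iff]
    refine ⟨v, fun w => ?_⟩
    induction w using TensorProduct.induction_on with
    | zero => exact ⟨0, zero_smul _ _⟩
    | tmul r x =>
      obtain ⟨m, hm, k, hk, -⟩ := hq x.toMul
      have hmq : (m : ℚ) ≠ 0 := by positivity
      refine ⟨r * k / m, ?_⟩
      have h1 : (m : ℤ) • x = k • Additive.ofMul (⟨a, hmem⟩ : divisionGroup a) := by
        apply Additive.toMul.injective
        rw [toMul_zsmul, toMul_zsmul, toMul_ofMul]
        apply Subtype.ext
        rw [Subgroup.coe_zpow, Subgroup.coe_zpow, zpow_natCast]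
        exact hk
      have e1 : (m : ℤ) • (r ⊗ₜ[ℤ] x) = r ⊗ₜ[ℤ] ((m : ℤ) • x) :=
        (map_zsmul (TensorProduct.mk ℤ ℚ (Additive (divisionGroup a)) r) (m : ℤ) x).symm
      have e2 : r ⊗ₜ[ℤ] (k • Additive.ofMul (⟨a, hmem⟩ : divisionGroup a)) =
          k • (r ⊗ₜ[ℤ] Additive.ofMul (⟨a, hmem⟩ : divisionGroup a)) :=
        map_zsmul (TensorProduct.mk ℤ ℚ (Additive (divisionGroup a)) r) k _
      have e3 : r ⊗ₜ[ℤ] Additive.ofMul (⟨a, hmem⟩ : divisionGroup a) = r • v := by
        rw [TensorProduct.smul_tmul', smul_eq_mul, mul_one]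
      rw [h1, e2, e3, ← Int.cast_smul_eq_zsmul ℚ (m : ℤ), ← Int.cast_smul_eq_zsmul ℚ k] at e1
      have e4 : r ⊗ₜ[ℤ] x = (m : ℚ)⁻¹ • (((m : ℤ) : ℚ) • (r ⊗ₜ[ℤ] x)) := by
        rw [smul_smul]
        push_cast
        rw [inv_mul_cancel₀ hmq, one_smul]
      rw [e4, e1, smul_smul, smul_smul]
      congr 1
      field_simp
    | add x y hx hy =>
      obtain ⟨r, hr⟩ := hx
      obtain ⟨s, hs⟩ := hy
      exact ⟨r + s, by rw [add_smul, hr, hs]⟩
  have hge : 1 ≤ Module.rank ℚ (ℚ ⊗[ℤ] Additive (divisionGroup a)) := by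
    rw [Cardinal.one_le_iff_ne_zero]
    intro h0
    rw [rank_zero_iff] at h0
    have : v = 0 := Subsingleton.elim _ _
    rw [this, map_zero] at hψv
    exact zero_ne_one hψv
  exact le_antisymm hle hge

/-- the first `n` primes are multiplicatively independent -/
theorem exists_mulIndep (n : ℕ) : ∃ a : Torus n, MulIndep a := by
  have hp : ∀ i : Fin n, ((Nat.nth Nat.Prime i : ℕ) : Qb) ≠ 0 := fun i => by
    have := (Nat.prime_nth_prime i).ne_zero
    exact_mod_cast this
  refine ⟨fun i => Units.mk0 _ (hp i), fun k hk => ?_⟩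
  have h1 : ∏ i : Fin n, (((Nat.nth Nat.Prime i : ℕ) : ℚ)) ^ k i = 1 := by
    have h2 := congrArg (fun u : Qbˣ => (u : Qb)) hk
    simp only [Units.val_one] at h2
    push_cast at h2
    simp only [Units.val_mk0] at h2
    have h3 : algebraMap ℚ Qb (∏ i : Fin n, (((Nat.nth Nat.Prime i : ℕ) : ℚ)) ^ k i) =
        algebraMap ℚ Qb 1 := by
      rw [map_prod, map_one, ← h2]
      apply Finset.prod_congr rfl
      intro i _
      rw [map_zpow₀, map_natCast]
    exact (algebraMap ℚ Qb).injective h3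
  funext j
  have : Fact (Nat.nth Nat.Prime j).Prime := ⟨Nat.prime_nth_prime j⟩
  have h4 : ∀ s : Finset (Fin n), padicValRat (Nat.nth Nat.Prime j)
      (∏ i ∈ s, (((Nat.nth Nat.Prime i : ℕ) : ℚ)) ^ k i) = if j ∈ s then k j else 0 := by
    intro s
    induction s using Finset.induction_on with
    | empty => simp
    | insert i s his ih =>
      have hi0 : (((Nat.nth Nat.Prime i : ℕ) : ℚ)) ≠ 0 := by
        have := (Nat.prime_nth_prime i).ne_zero
        exact_mod_cast this
      rw [Finset.prod_insert his, padicValRat.mul (zpow_ne_zero _ hi0)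
        (Finset.prod_ne_zero_iff.mpr fun l _ => zpow_ne_zero _ (by
          have := (Nat.prime_nth_prime l).ne_zero
          exact_mod_cast this)), ih, padicValRat.zpow]
      by_cases hij : j = i
      · subst hij
        rw [if_neg his, if_pos (Finset.mem_insert_self _ _), padicValRat.of_nat,
          padicValNat_self]
        simp
      · have h5 : padicValNat (Nat.nth Nat.Prime j) (Nat.nth Nat.Prime i) = 0 := by
          have : Fact (Nat.nth Nat.Prime i).Prime := ⟨Nat.prime_nth_prime i⟩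
          apply padicValNat_primes
          intro h
          apply hij
          exact Fin.ext (Nat.nth_injective Nat.infinite_setOf_prime h)
        rw [padicValRat.of_nat, h5]
        simp [Finset.mem_insert, hij]
  have h6 := h4 Finset.univ
  rw [h1, if_pos (Finset.mem_univ _)] at h6
  simpa using h6.symm

end Pool.Agent.U343.Rem
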