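import Pool.Agent.U343.Rem.Core

set_option autoImplicit false

namespace Pool.Agent.U343.Rem

open MvPolynomial TensorProduct

/-- the next index, cyclically -/
def nxt {n : ℕ} (i : Fin n) : Fin n := finRotate n i

/-- exponent: 2 at the last index, 1 at the others -/
def wt {n : ℕ} (i : Fin n) : ℕ := if (i : ℕ) + 1 = n then 2 else 1

/-- the point `(b_2, ..., b_n, b_1^2)` -/
noncomputable def shift {n : ℕ} (b : Torus n) : Torus n := fun i => b (nxt i) ^ wt i

lemma shift_pow {n : ℕ} (b : Torus n) (m : ℕ) : shift b ^ m = shift (b ^ m) := by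
  funext i
  simp only [shift, Pi.pow_apply]
  rw [← pow_mul, ← pow_mul, mul_comm]

/-- a character -/
noncomputable def chi {n : ℕ} (c : Fin n → ℤ) (x : Torus n) : Qbˣ := ∏ i, x i ^ c i

lemma chi_mul {n : ℕ} (c : Fin n → ℤ) (x y : Torus n) : chi c (x * y) = chi c x * chi c y := by
  simp [chi, mul_zpow, Finset.prod_mul_distrib]

lemma chi_pow {n : ℕ} (c : Fin n → ℤ) (x : Torus n) (m : ℕ) : chi c (x ^ m) = chi c x ^ m := by
  unfold chi
  rw [← Finset.prod_pow]
  apply Finset.prod_congr rfl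
  intro i _
  rw [Pi.pow_apply, ← zpow_natCast, ← zpow_mul, mul_comm, zpow_mul, zpow_natCast]

lemma chi_zpow {n : ℕ} (c : Fin n → ℤ) (x : Torus n) (m : ℤ) : chi c (x ^ m) = chi c x ^ m := by
  unfold chi
  rw [← Finset.prod_zpow]
  apply Finset.prod_congr rfl
  intro i _
  rw [Pi.pow_apply, ← zpow_mul, mul_comm, zpow_mul]

lemma chi_shift {n : ℕ} (c : Fin n → ℤ) (a : Torus n) :
    chi c (shift a) = ∏ i, a (nxt i) ^ ((wt i : ℤ) * c i) := by
  unfold chi shift
  apply Finset.prod_congr rfl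
  intro i _
  rw [zpow_mul, zpow_natCast]

/-- no rational eigenvector -/
lemma no_eigenvector {n : ℕ} (hn : 2 ≤ n) (c : Fin n → ℤ) (M k : ℤ) (hM : M ≠ 0)
    (h : ∀ i, (wt i : ℤ) * c i * M = k * c (nxt i)) : c = 0 := by
  obtain ⟨p, rfl⟩ : ∃ p, n = p + 2 := ⟨n - 2, by omega⟩
  by_contra hc
  have hw : ∀ i : Fin (p + 2), (wt i : ℤ) ≠ 0 := by
    intro i
    unfold wt
    split <;> simp
  -- if one entry is zero, all are zero
  have hall : ∀ i, c i ≠ 0 := by
    by_contra h0
    push Not at h0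
    obtain ⟨i₀, hi₀⟩ := h0
    apply hc
    have hz : ∀ m : ℕ, c ((((finRotate (p + 2))⁻¹) ^ m) i₀) = 0 := by
      intro m
      induction m with
      | zero => exact hi₀
      | succ m ih =>
        rw [pow_succ', Equiv.Perm.mul_apply]
        set j := (((finRotate (p + 2))⁻¹) ^ m) i₀
        have := h (((finRotate (p + 2))⁻¹) j)
        have e : nxt (((finRotate (p + 2))⁻¹) j) = j := Equiv.apply_symm_apply _ _
        rw [e, ih, mul_zero] at this
        rcases mul_eq_zero.mp this with h1 | h1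
        · rcases mul_eq_zero.mp h1 with h2 | h2
          · exact absurd h2 (hw _)
          · exact h2
        · exact absurd h1 hM
    funext j
    have hcyc := (isCycle_finRotate (n := p)).inv
    have hmove : ∀ x : Fin (p + 2), (finRotate (p + 2))⁻¹ x ≠ x := by
      intro x
      have : x ∈ (finRotate (p + 2))⁻¹.support := by
        rw [Equiv.Perm.support_inv, support_finRotate]
        exact Finset.mem_univ _
      exact Equiv.Perm.mem_support.mp this
    obtain ⟨m, hm⟩ := hcyc.exists_pow_eq (hmove i₀) (hmove j)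
    rw [← hm]
    exact hz m
  have hprod : (∏ i, ((wt i : ℤ) * c i * M)) = ∏ i, (k * c (nxt i)) :=
    Finset.prod_congr rfl fun i _ => h i
  rw [Finset.prod_mul_distrib, Finset.prod_mul_distrib, Finset.prod_mul_distrib] at hprod
  have e1 : ∏ i, c (nxt i) = ∏ i, c i := Equiv.prod_comp (finRotate (p + 2)) c
  have e2 : ∏ i : Fin (p + 2), (wt i : ℤ) = 2 := by
    rw [Finset.prod_eq_single (Fin.last (p + 1))]
    · simp [wt]
    · intro b _ hb
      have : (b : ℕ) ≠ p + 1 := fun h => hb (Fin.ext h)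
      simp only [wt]
      rw [if_neg (by omega)]
      simp
    · intro h
      exact absurd (Finset.mem_univ _) h
  have hc0 : ∏ i, c i ≠ 0 := Finset.prod_ne_zero_iff.mpr fun i _ => hall i
  rw [e1, e2] at hprod
  simp only [Finset.prod_const, Finset.card_univ, Fintype.card_fin] at hprod
  have h3 : 2 * M ^ (p + 2) = k ^ (p + 2) := by
    have : (∏ i, c i) * (2 * M ^ (p + 2)) = (∏ i, c i) * k ^ (p + 2) := by linarith
    exact mul_left_cancel₀ hc0 this
  have hk : k ≠ 0 := by
    rintro rfl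
    rw [zero_pow (by omega)] at h3
    have : M ^ (p + 2) ≠ 0 := pow_ne_zero _ hM
    omega
  have h4 := congrArg (padicValInt 2) h3
  have : Fact (Nat.Prime 2) := ⟨Nat.prime_two⟩
  rw [padicValInt.mul (by norm_num) (pow_ne_zero _ hM)] at h4
  have h5 : ∀ z : ℤ, z ≠ 0 → padicValInt 2 (z ^ (p + 2)) = (p + 2) * padicValInt 2 z := by
    intro z hz
    unfold padicValInt
    rw [Int.natAbs_pow, padicValNat.pow]
  rw [h5 M hM, h5 k hk] at h4
  have h6 : padicValInt 2 2 = 1 := by
    unfold padicValInt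
    simp
  rw [h6] at h4
  have h7 : (p + 2) ∣ 1 := by
    have : (p + 2 : ℕ) ∣ (1 + (p + 2) * padicValInt 2 M) := by rw [h4]; exact Dvd.intro _ rfl
    exact (Nat.dvd_add_left (Dvd.intro _ rfl)).mp this
  have := Nat.le_of_dvd one_pos h7
  omega

/-- the equation between the character values -/
lemma eq_of_character {n : ℕ} (a : Torus n) (ha : MulIndep a) (c : Fin n → ℤ) (m : ℕ)
    (P γ : Torus n) (hP : P ^ m = shift a) (M : ℕ) (k : ℤ) (hγ : γ ^ M = a ^ k)
    (hχ : chi c P = chi c γ) :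
    ∀ i, (wt i : ℤ) * c i * M = (k * m) * c (nxt i) := by
  have h1 : chi c P ^ (m * M) = chi c γ ^ (m * M) := by rw [hχ]
  rw [pow_mul, ← chi_pow, hP, mul_comm m M, pow_mul, ← chi_pow c γ, hγ, chi_zpow, chi_shift] at h1
  have h2 : (∏ i, a (nxt i) ^ ((wt i : ℤ) * c i)) ^ M = ∏ i, a (nxt i) ^ ((wt i : ℤ) * c i * M) := by
    rw [← Finset.prod_pow]
    apply Finset.prod_congr rfl
    intro i _
    rw [← zpow_natCast, ← zpow_mul]
  have h3 : (chi c a ^ k) ^ m = ∏ i, a (nxt i) ^ ((k * m) * c (nxt i)) := by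
    have : (chi c a ^ k) ^ m = ∏ i, a i ^ ((k * m) * c i) := by
      rw [← zpow_natCast, ← zpow_mul]
      unfold chi
      rw [← Finset.prod_zpow]
      apply Finset.prod_congr rfl
      intro i _
      rw [← zpow_mul, mul_comm]
    rw [this]
    exact (Equiv.prod_comp (finRotate n) (fun i => a i ^ ((k * m) * c i))).symm
  rw [h2, h3] at h1
  have h4 : ∏ i, a (nxt i) ^ ((wt i : ℤ) * c i * M - (k * m) * c (nxt i)) = 1 := by
    have : ∀ i, a (nxt i) ^ ((wt i : ℤ) * c i * M - (k * m) * c (nxt i)) =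
        a (nxt i) ^ ((wt i : ℤ) * c i * M) / a (nxt i) ^ ((k * m) * c (nxt i)) := by
      intro i
      rw [zpow_sub, div_eq_mul_inv]
    rw [Finset.prod_congr rfl fun i _ => this i, Finset.prod_div_distrib, h1, div_self']
  -- transport to the index of `a`
  let e : Fin n → ℤ := fun j => (wt ((finRotate n).symm j) : ℤ) * c ((finRotate n).symm j) * M -
    (k * m) * c j
  have h5 : ∏ j, a j ^ e j = 1 := by
    rw [← h4, ← Equiv.prod_comp (finRotate n) (fun j => a j ^ e j)]
    apply Finset.prod_congr rfl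
    intro i _
    simp only [e, nxt, Equiv.symm_apply_apply]
  have h6 := ha e h5
  intro i
  have h7 := congrFun h6 (nxt i)
  simp only [e, nxt, Equiv.symm_apply_apply, Pi.zero_apply] at h7
  simp only [nxt]
  linarith

end Pool.Agent.U343.Rem
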